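import Mathlib
import Pool.Agent.U469.EW.Stm

/-! Project EW, package WIN: the interactions in a window. -/

set_option autoImplicit false

open MeasureTheory Set Filter Topology
open scoped ENNReal

namespace Pool.Agent.U111.EW.WIN

open Pool.Agent.U469.EW

theorem nsq_nonneg (k : Wv) : 0 ≤ nsq k := Finset.sum_nonneg fun _ _ => sq_nonneg _

theorem sq_nonneg' (a : Fld) (k : Wv) : 0 ≤ sq a k := Finset.sum_nonneg fun _ _ => sq_nonneg _

theorem mem_box {N : ℕ} {k : Wv} : k ∈ box N ↔ ∀ i, -(N : ℤ) ≤ k i ∧ k i ≤ N := by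
  unfold box
  simp only [Fintype.mem_piFinset, Finset.mem_Icc]

theorem neg_mem_box {N : ℕ} {k : Wv} (h : k ∈ box N) : -k ∈ box N := by
  rw [mem_box] at h ⊢
  intro i
  have := h i
  rw [Pi.neg_apply]
  omega

theorem neg_mem_win {A M : ℕ} {k : Wv} (h : k ∈ win A M) : -k ∈ win A M := by
  unfold win at h ⊢
  rw [Finset.mem_sdiff] at h ⊢
  refine ⟨neg_mem_box h.1, fun h2 => h.2 ?_⟩
  have := neg_mem_box h2
  rwa [neg_neg] at this

/-- the set of the pairs `(k, j)` in the window -/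
noncomputable def RR (A M : ℕ) : Finset (Wv × Wv) :=
  (win A M ×ˢ win A M).filter fun z => z.1 - z.2 ∈ win A M

theorem mem_RR {A M : ℕ} {z : Wv × Wv} :
    z ∈ RR A M ↔ (z.1 ∈ win A M ∧ z.2 ∈ win A M) ∧ z.1 - z.2 ∈ win A M := by
  unfold RR
  rw [Finset.mem_filter, Finset.mem_product]

theorem sum_RR (A M : ℕ) (g : Wv → Wv → ℂ) :
    ∑ k ∈ win A M, ∑ j ∈ (win A M).filter (fun j => k - j ∈ win A M), g k j = ∑ z ∈ RR A M, g z.1 z.2 := by
  unfold RR
  rw [Finset.sum_filter, Finset.sum_product]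
  refine Finset.sum_congr rfl fun k _ => ?_
  rw [Finset.sum_filter]

theorem inv_mem {A M : ℕ} {z : Wv × Wv} (h : z ∈ RR A M) : (z.2 - z.1, z.2) ∈ RR A M := by
  rw [mem_RR] at h ⊢
  refine ⟨⟨?_, h.1.2⟩, ?_⟩
  · have := neg_mem_win h.2
    rwa [neg_sub] at this
  · have := neg_mem_win h.1.1
    have e : z.2 - z.1 - z.2 = -z.1 := by abel
    show z.2 - z.1 - z.2 ∈ win A M
    rwa [e]

theorem swap (hS : S_SYM) (a : Fld) (ha : Good a) (A M : ℕ) (φ : Wv → ℝ) (hφ : ∀ k, φ (-k) = φ k) :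
    ∑ z ∈ RR A M, ((φ (z.1 - z.2) : ℝ) : ℂ) * X a z.2 z.1 = -∑ z ∈ RR A M, ((φ z.1 : ℝ) : ℂ) * X a z.2 z.1 := by
  rw [← Finset.sum_neg_distrib]
  refine Finset.sum_nbij' (fun z => (z.2 - z.1, z.2)) (fun z => (z.2 - z.1, z.2)) (fun z hz => inv_mem hz)
    (fun z hz => inv_mem hz) ?_ ?_ ?_
  · intro z _
    refine Prod.ext ?_ rfl
    show z.2 - (z.2 - z.1) = z.1
    abel
  · intro z _
    refine Prod.ext ?_ rfl
    show z.2 - (z.2 - z.1) = z.1
    abel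
  · intro z _
    have h1 := (hS a ha).1 z.2 z.1
    show ((φ (z.1 - z.2) : ℝ) : ℂ) * X a z.2 z.1 = -(((φ (z.2 - z.1) : ℝ) : ℂ) * X a z.2 (z.2 - z.1))
    rw [h1]
    have h2 : φ (z.2 - z.1) = φ (z.1 - z.2) := by rw [← hφ (z.1 - z.2), neg_sub]
    rw [h2]
    ring

theorem X_sum (a : Fld) (A M : ℕ) (k : Wv) :
    ∑ j ∈ (win A M).filter (fun j => k - j ∈ win A M), X a j k =
      ∑ m, ∑ i, ((k m : ℂ) * (starRingEnd ℂ) (a k i)) *
        ∑ j ∈ (win A M).filter (fun j => k - j ∈ win A M), a j m * a (k - j) i := by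
  have h1 : ∀ j, X a j k = ∑ m, ∑ i, ((k m : ℂ) * (starRingEnd ℂ) (a k i)) * (a j m * a (k - j) i) := by
    intro j
    unfold X dt
    rw [Finset.sum_mul]
    refine Finset.sum_congr rfl fun m _ => ?_
    rw [Finset.mul_sum]
    refine Finset.sum_congr rfl fun i _ => ?_
    ring
  simp only [h1]
  rw [Finset.sum_comm]
  refine Finset.sum_congr rfl fun m _ => ?_
  rw [Finset.sum_comm]
  refine Finset.sum_congr rfl fun i _ => ?_
  rw [Finset.mul_sum]

theorem tail_bound (a : Fld) (ha : Good a) (A M : ℕ) :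
    ∑ k ∈ win A M, ∑ m, ∑ i, (|(k m : ℝ)| * ‖a k i‖) ^ 2 ≤ tail A a := by
  have h1 : ∀ k ∈ win A M, ∑ m, ∑ i, (|(k m : ℝ)| * ‖a k i‖) ^ 2 =
      if k ∈ box A then 0 else nsq k * sq a k := by
    intro k hk
    unfold win at hk
    rw [Finset.mem_sdiff] at hk
    rw [if_neg hk.2]
    unfold nsq U469.EW.sq
    rw [Finset.sum_mul_sum]
    refine Finset.sum_congr rfl fun m _ => Finset.sum_congr rfl fun i _ => ?_
    rw [mul_pow, sq_abs]
  rw [Finset.sum_congr rfl h1]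
  unfold tail
  have hnn : ∀ k, 0 ≤ (if k ∈ box A then 0 else nsq k * sq a k) := by
    intro k
    split_ifs
    · exact le_refl _
    · exact mul_nonneg (nsq_nonneg k) (sq_nonneg' a k)
  refine Summable.sum_le_tsum _ (fun k _ => hnn k) ?_
  refine Summable.of_nonneg_of_le hnn (fun k => ?_) ha.s1
  split_ifs
  · exact mul_nonneg (nsq_nonneg k) (sq_nonneg' a k)
  · exact le_refl _

theorem t_WIN (hS : S_SYM) (hQ : S_QUA) : S_WIN := by
  intro a ha A M φ hφ hev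
  -- the antisymmetrization
  have e1 : ∑ k ∈ win A M, ∑ j ∈ (win A M).filter (fun j => k - j ∈ win A M),
      ((φ k - φ (k - j) : ℝ) : ℂ) * X a j k =
      2 * ∑ k ∈ win A M, (φ k : ℂ) * ∑ j ∈ (win A M).filter (fun j => k - j ∈ win A M), X a j k := by
    have e2 : ∑ k ∈ win A M, (φ k : ℂ) * ∑ j ∈ (win A M).filter (fun j => k - j ∈ win A M), X a j k =
        ∑ z ∈ RR A M, ((φ z.1 : ℝ) : ℂ) * X a z.2 z.1 := by
      rw [← sum_RR A M fun k j => ((φ k : ℝ) : ℂ) * X a j k]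
      refine Finset.sum_congr rfl fun k _ => ?_
      rw [Finset.mul_sum]
    rw [e2, sum_RR A M fun k j => ((φ k - φ (k - j) : ℝ) : ℂ) * X a j k]
    have e3 : ∀ z ∈ RR A M, ((φ z.1 - φ (z.1 - z.2) : ℝ) : ℂ) * X a z.2 z.1 =
        ((φ z.1 : ℝ) : ℂ) * X a z.2 z.1 - ((φ (z.1 - z.2) : ℝ) : ℂ) * X a z.2 z.1 := by
      intro z _
      push_cast
      ring
    rw [Finset.sum_congr rfl e3, Finset.sum_sub_distrib, swap hS a ha A M φ hev]
    ring
  rw [e1, norm_mul]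
  have n2 : ‖(2 : ℂ)‖ = 2 := by norm_num
  rw [n2]
  refine mul_le_mul_of_nonneg_left ?_ (by norm_num)
  -- the Cauchy-Schwarz inequality
  set c : Wv → Fin 3 → Fin 3 → ℂ := fun k m i =>
    ∑ j ∈ (win A M).filter (fun j => k - j ∈ win A M), a j m * a (k - j) i with hc
  have b1 : ‖∑ k ∈ win A M, (φ k : ℂ) * ∑ j ∈ (win A M).filter (fun j => k - j ∈ win A M), X a j k‖ ≤
      ∑ k ∈ win A M, ∑ m, ∑ i, ‖c k m i‖ * (|(k m : ℝ)| * ‖a k i‖) := by
    refine (norm_sum_le _ _).trans (Finset.sum_le_sum fun k _ => ?_)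
    rw [norm_mul, X_sum]
    have hφk : ‖(φ k : ℂ)‖ ≤ 1 := by
      rw [Complex.norm_real, Real.norm_eq_abs, abs_of_nonneg (hφ k).1]
      exact (hφ k).2
    refine (mul_le_of_le_one_left (norm_nonneg _) hφk).trans ?_
    refine (norm_sum_le _ _).trans (Finset.sum_le_sum fun m _ => ?_)
    refine (norm_sum_le _ _).trans (Finset.sum_le_sum fun i _ => ?_)
    rw [norm_mul, norm_mul, RCLike.norm_conj, mul_comm]
    have : ‖(k m : ℂ)‖ = |(k m : ℝ)| := by
      rw [← Complex.ofReal_intCast, Complex.norm_real, Real.norm_eq_abs]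
    rw [this]
  refine b1.trans ?_
  -- sums over the product
  set P : Finset (Wv × Fin 3 × Fin 3) := win A M ×ˢ (Finset.univ ×ˢ Finset.univ) with hP
  have p1 : ∀ g : Wv → Fin 3 → Fin 3 → ℝ, ∑ k ∈ win A M, ∑ m, ∑ i, g k m i = ∑ z ∈ P, g z.1 z.2.1 z.2.2 := by
    intro g
    rw [hP, Finset.sum_product]
    refine Finset.sum_congr rfl fun k _ => ?_
    rw [Finset.sum_product]
  have h2 := Real.sum_mul_le_sqrt_mul_sqrt P (fun z => ‖c z.1 z.2.1 z.2.2‖)
    (fun z => |(z.1 z.2.1 : ℝ)| * ‖a z.1 z.2.2‖)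
  rw [← p1 (fun k m i => ‖c k m i‖ * (|(k m : ℝ)| * ‖a k i‖)), ← p1 (fun k m i => ‖c k m i‖ ^ 2),
    ← p1 (fun k m i => (|(k m : ℝ)| * ‖a k i‖) ^ 2)] at h2
  refine h2.trans (mul_le_mul ?_ ?_ (Real.sqrt_nonneg _) (Real.sqrt_nonneg _))
  · exact Real.sqrt_le_sqrt (hQ (win A M) (win A M) a)
  · exact Real.sqrt_le_sqrt (tail_bound a ha A M)

end Pool.Agent.U111.EW.WIN
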